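import Pool.Agent.H577.QR.Stm

/-!
# Project QR (helper577), statement CNT: the number of zeros of a binary quadratic form modulo `d`
-/

set_option autoImplicit false

namespace Pool.Agent.H183.QR577

open Finset Filter
open Pool.Agent.H577.QR
open Pool.Agent.W78.GA (Sp gd)

/-- the zeros of the form over a finite ring -/
def ZR (t c : ℤ) (R : Type) [CommRing R] [Fintype R] [DecidableEq R] : Finset (R × R) :=
  univ.filter (fun v : R × R => v.1 ^ 2 + (t : R) * v.1 * v.2 + (c : R) * v.2 ^ 2 = 0)

theorem mem_ZR {t c : ℤ} {R : Type} [CommRing R] [Fintype R] [DecidableEq R] {v : R × R} :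
    v ∈ ZR t c R ↔ v.1 ^ 2 + (t : R) * v.1 * v.2 + (c : R) * v.2 ^ 2 = 0 := by
  unfold ZR
  rw [mem_filter]
  exact ⟨fun h => h.2, fun h => ⟨mem_univ _, h⟩⟩

theorem ZR_equiv (t c : ℤ) {R S : Type} [CommRing R] [Fintype R] [DecidableEq R]
    [CommRing S] [Fintype S] [DecidableEq S] (e : R ≃+* S) : (ZR t c R).card = (ZR t c S).card := by
  refine card_nbij' (fun v => (e v.1, e v.2)) (fun v => (e.symm v.1, e.symm v.2)) ?_ ?_ ?_ ?_
  · intro v hv
    rw [mem_coe, mem_ZR] at hv ⊢
    have h := congrArg e hv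
    simpa only [map_add, map_mul, map_pow, map_intCast, map_zero] using h
  · intro v hv
    rw [mem_coe, mem_ZR] at hv ⊢
    have h := congrArg e.symm hv
    simpa only [map_add, map_mul, map_pow, map_intCast, map_zero] using h
  · intro v _
    simp
  · intro v _
    simp

theorem ZR_prod (t c : ℤ) {R S : Type} [CommRing R] [Fintype R] [DecidableEq R]
    [CommRing S] [Fintype S] [DecidableEq S] :
    (ZR t c (R × S)).card = (ZR t c R).card * (ZR t c S).card := by
  rw [← card_product]
  refine card_nbij' (fun v => ((v.1.1, v.2.1), (v.1.2, v.2.2)))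
    (fun v => ((v.1.1, v.2.1), (v.1.2, v.2.2))) ?_ ?_ ?_ ?_
  · intro v hv
    rw [mem_coe, mem_ZR] at hv
    rw [mem_coe, mem_product, mem_ZR, mem_ZR]
    have h1 := congrArg Prod.fst hv
    have h2 := congrArg Prod.snd hv
    simp only [Prod.fst_add, Prod.fst_mul, Prod.pow_fst, Prod.fst_intCast, Prod.fst_zero] at h1
    simp only [Prod.snd_add, Prod.snd_mul, Prod.pow_snd, Prod.snd_intCast, Prod.snd_zero] at h2
    exact ⟨h1, h2⟩
  · intro v hv
    rw [mem_coe, mem_product, mem_ZR, mem_ZR] at hv
    rw [mem_coe, mem_ZR]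
    refine Prod.ext ?_ ?_
    · simp only [Prod.fst_add, Prod.fst_mul, Prod.pow_fst, Prod.fst_intCast, Prod.fst_zero]
      exact hv.1
    · simp only [Prod.snd_add, Prod.snd_mul, Prod.pow_snd, Prod.snd_intCast, Prod.snd_zero]
      exact hv.2
  · intro v _
    rfl
  · intro v _
    rfl

/-- a line has as many points as the ring -/
theorem line_card {R : Type} [CommRing R] [Fintype R] [DecidableEq R] (r : R) :
    ((univ : Finset (R × R)).filter (fun v => v.1 + r * v.2 = 0)).card = Fintype.card R := by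
  have h : (univ : Finset (R × R)).filter (fun v => v.1 + r * v.2 = 0) =
      (univ : Finset R).image (fun x => (-(r * x), x)) := by
    ext v
    rw [mem_filter, mem_image]
    constructor
    · rintro ⟨-, h⟩
      refine ⟨v.2, mem_univ _, Prod.ext ?_ rfl⟩
      exact (eq_neg_of_add_eq_zero_left h).symm
    · rintro ⟨x, -, rfl⟩
      exact ⟨mem_univ _, by ring⟩
  rw [h, card_image_of_injective _ (fun x y hxy => congrArg Prod.snd hxy), card_univ]

theorem ZR_field (t c : ℤ) {R : Type} [Field R] [Fintype R] [DecidableEq R] (r : R)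
    (hr : r ^ 2 - t * r + c = 0) (hd : (t : R) ^ 2 - 4 * c ≠ 0) :
    (ZR t c R).card + 1 = 2 * Fintype.card R := by
  have hne : (t : R) - r - r ≠ 0 := by
    intro h
    apply hd
    linear_combination ((t : R) - 2 * r) * h - 4 * hr
  have e1 : ZR t c R = (univ : Finset (R × R)).filter (fun v => v.1 + r * v.2 = 0) ∪
      (univ : Finset (R × R)).filter (fun v => v.1 + ((t : R) - r) * v.2 = 0) := by
    ext v
    rw [mem_ZR, mem_union, mem_filter, mem_filter]
    have e : v.1 ^ 2 + (t : R) * v.1 * v.2 + (c : R) * v.2 ^ 2 =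
        (v.1 + r * v.2) * (v.1 + ((t : R) - r) * v.2) := by
      linear_combination v.2 ^ 2 * hr
    rw [e, mul_eq_zero]
    constructor
    · rintro (h | h)
      · exact Or.inl ⟨mem_univ _, h⟩
      · exact Or.inr ⟨mem_univ _, h⟩
    · rintro (h | h)
      · exact Or.inl h.2
      · exact Or.inr h.2
  have e2 : (univ : Finset (R × R)).filter (fun v => v.1 + r * v.2 = 0) ∩
      (univ : Finset (R × R)).filter (fun v => v.1 + ((t : R) - r) * v.2 = 0) = {(0, 0)} := by
    ext v
    rw [mem_inter, mem_filter, mem_filter, mem_singleton]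
    constructor
    · rintro ⟨⟨-, h1⟩, ⟨-, h2⟩⟩
      have h3 : ((t : R) - r - r) * v.2 = 0 := by linear_combination h2 - h1
      have h4 : v.2 = 0 := (mul_eq_zero.1 h3).resolve_left hne
      rw [h4, mul_zero, add_zero] at h1
      exact Prod.ext h1 h4
    · rintro rfl
      exact ⟨⟨mem_univ _, by simp⟩, ⟨mem_univ _, by simp⟩⟩
  have h := card_union_add_card_inter
    ((univ : Finset (R × R)).filter (fun v => v.1 + r * v.2 = 0))
    ((univ : Finset (R × R)).filter (fun v => v.1 + ((t : R) - r) * v.2 = 0))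
  rw [← e1, e2, card_singleton, line_card, line_card] at h
  omega

/-- the zeros modulo `d` -/
theorem range_card (t c : ℤ) (d : ℕ) [NeZero d] :
    (((range d) ×ˢ (range d)).filter (fun v : ℕ × ℕ => (d : ℤ) ∣ Qf t c v.1 v.2)).card =
      (ZR t c (ZMod d)).card := by
  have hiff : ∀ a b : ℕ, (d : ℤ) ∣ Qf t c a b ↔
      (a : ZMod d) ^ 2 + (t : ZMod d) * a * b + (c : ZMod d) * (b : ZMod d) ^ 2 = 0 := by
    intro a b
    rw [← ZMod.intCast_zmod_eq_zero_iff_dvd]
    simp only [Qf, Int.cast_add, Int.cast_mul, Int.cast_pow, Int.cast_natCast]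
  refine card_nbij' (fun v => ((v.1 : ZMod d), (v.2 : ZMod d))) (fun w => (w.1.val, w.2.val))
    ?_ ?_ ?_ ?_
  · intro v hv
    rw [mem_coe, mem_filter] at hv
    rw [mem_coe, mem_ZR]
    exact (hiff _ _).1 hv.2
  · intro w hw
    rw [mem_coe, mem_ZR] at hw
    rw [mem_coe, mem_filter, mem_product, mem_range, mem_range]
    refine ⟨⟨ZMod.val_lt _, ZMod.val_lt _⟩, (hiff _ _).2 ?_⟩
    rw [ZMod.natCast_zmod_val, ZMod.natCast_zmod_val]
    exact hw
  · intro v hv
    rw [mem_coe, mem_filter, mem_product, mem_range, mem_range] at hv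
    simp only [ZMod.val_natCast, Nat.mod_eq_of_lt hv.1.1, Nat.mod_eq_of_lt hv.1.2]
  · intro w _
    simp only [ZMod.natCast_zmod_val]

theorem gd_mul {a b : ℕ} (h : Nat.Coprime a b) : gd (a * b) = gd a * gd b := by
  unfold gd
  rw [h.primeFactors_mul, prod_union h.disjoint_primeFactors]

theorem ZR_count (t c : ℤ) : ∀ d : ℕ, ∀ _ : NeZero d, Squarefree d →
    (∀ p : ℕ, p.Prime → p ∣ d → Sp t c p) →
    ((ZR t c (ZMod d)).card : ℝ) = (d : ℝ) ^ 2 * gd d := by
  intro d
  induction d using Nat.recOnPrimeCoprime with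
  | zero => intro h; exact absurd rfl h.out
  | prime_pow p n hp =>
    intro hne hsq hS
    rcases Nat.eq_zero_or_pos n with rfl | hn
    · have e : (ZR t c (ZMod (p ^ 0))).card = 1 := by
        have : Subsingleton (ZMod (p ^ 0)) := by
          rw [pow_zero]; infer_instance
        have e1 : ZR t c (ZMod (p ^ 0)) = univ := by
          ext v
          rw [mem_ZR]
          exact ⟨fun _ => mem_univ _, fun _ => Subsingleton.elim _ _⟩
        rw [e1, card_univ]
        exact Fintype.card_eq_one_iff.2 ⟨0, fun y => Subsingleton.elim _ _⟩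
      rw [e, pow_zero]
      unfold gd
      simp
    · have hn1 : n = 1 := by
        by_contra hc
        have h2 : p * p ∣ p ^ n := by
          rw [← pow_two]
          exact pow_dvd_pow p (by omega)
        exact hp.one_lt.ne' (Nat.isUnit_iff.1 (hsq p h2))
      subst hn1
      revert hne hsq hS
      rw [pow_one]
      intro hne hsq hS
      obtain ⟨-, h5, hD, r, hr⟩ := hS p hp dvd_rfl
      have : Fact p.Prime := ⟨hp⟩
      have hr' : (r : ZMod p) ^ 2 - (t : ZMod p) * r + (c : ZMod p) = 0 := by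
        have := (ZMod.intCast_zmod_eq_zero_iff_dvd _ p).2 hr
        simpa only [Int.cast_add, Int.cast_sub, Int.cast_mul, Int.cast_pow] using this
      have hD' : (t : ZMod p) ^ 2 - 4 * (c : ZMod p) ≠ 0 := by
        intro h
        apply hD
        rw [← ZMod.intCast_zmod_eq_zero_iff_dvd]
        simpa only [Int.cast_sub, Int.cast_mul, Int.cast_pow, Int.cast_ofNat] using h
      have h := ZR_field t c (r : ZMod p) hr' hD'
      rw [ZMod.card] at h
      have h' : ((ZR t c (ZMod p)).card : ℝ) + 1 = 2 * p := by exact_mod_cast h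
      have hg : gd p = (2 * (p : ℝ) - 1) / (p : ℝ) ^ 2 := by
        unfold gd
        rw [hp.primeFactors, prod_singleton]
      have hp0 : (p : ℝ) ≠ 0 := by exact_mod_cast hp.ne_zero
      rw [hg, mul_div_cancel₀ _ (pow_ne_zero 2 hp0)]
      linarith
  | coprime a b ha hb hab iha ihb =>
    intro hne hsq hS
    have hsq' := (Nat.squarefree_mul hab).1 hsq
    have na : NeZero a := ⟨by omega⟩
    have nb : NeZero b := ⟨by omega⟩
    have h1 := iha na hsq'.1 (fun p hp hd => hS p hp (hd.mul_right b))
    have h2 := ihb nb hsq'.2 (fun p hp hd => hS p hp (hd.mul_left a))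
    rw [ZR_equiv t c (ZMod.chineseRemainder hab), ZR_prod, gd_mul hab, Nat.cast_mul, Nat.cast_mul,
      h1, h2]
    ring

/-- (CNT) the number of zeros of the form modulo `d` -/
theorem cnt (t c : ℤ) : S_CNT t c := by
  intro d hsq hS
  have hd : NeZero d := ⟨hsq.ne_zero⟩
  rw [range_card]
  exact ZR_count t c d hd hsq hS

end Pool.Agent.H183.QR577
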